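import Pool.Agent.Q165.MinOv

set_option autoImplicit false

/-!
# The limit proportion of minimal overlapping permutations does not depend on the first entry
-/

namespace Pool.Agent.Results.MP_d8535d_co.SameLimit

open Equiv Finset Filter Topology Q165.MinOv

/-- The proportion of minimal overlapping permutations among the permutations of `n` letters
which start with `m`. -/
noncomputable def p (n m : ℕ) : ℝ :=
  ({τ : Perm (Fin n) | MinOverlap τ ∧ ∃ h : 0 < n, (τ ⟨0, h⟩ : ℕ) + 1 = m}.ncard : ℝ) /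
    ((n - 1).factorial : ℝ)

/-- The permutation of `n + 1` letters with `v` at the place `q` and the rest as in `τ`. -/
def ins {n : ℕ} (q v : Fin (n + 1)) (τ : Perm (Fin n)) : Perm (Fin (n + 1)) :=
  (finSuccEquiv' q).trans ((Equiv.optionCongr τ).trans (finSuccEquiv' v).symm)

theorem ins_at {n : ℕ} (q v : Fin (n + 1)) (τ : Perm (Fin n)) : ins q v τ q = v := by
  simp [ins]

theorem ins_succAbove {n : ℕ} (q v : Fin (n + 1)) (τ : Perm (Fin n)) (i : Fin n) :
    ins q v τ (q.succAbove i) = v.succAbove (τ i) := by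
  simp [ins]

theorem ins_bijective {n : ℕ} (q : Fin (n + 1)) :
    Function.Bijective (fun x : Fin (n + 1) × Perm (Fin n) => ins q x.1 x.2) := by
  classical
  rw [Fintype.bijective_iff_injective_and_card]
  constructor
  · rintro ⟨v, τ⟩ ⟨v', τ'⟩ h
    simp only at h
    have h1 : v = v' := by
      rw [← ins_at q v τ, h, ins_at]
    subst h1
    have h2 : τ = τ' := by
      ext1 i
      have h3 := ins_succAbove q v τ i
      rw [h, ins_succAbove] at h3
      exact (Fin.succAbove_right_injective h3).symm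
    rw [h2]
  · rw [Fintype.card_prod, Fintype.card_perm, Fintype.card_perm, Fintype.card_fin,
      Fintype.card_fin, Nat.factorial_succ]

/-- Raising the values from `v` on. -/
def up (v x : ℕ) : ℕ := if x < v then x else x + 1

theorem up_lt (v x y : ℕ) : up v x < up v y ↔ x < y := by
  unfold up
  split_ifs <;> omega

theorem succAbove_val {n : ℕ} (v : Fin (n + 1)) (i : Fin n) : (v.succAbove i : ℕ) = up v i := by
  unfold up
  split_ifs with h
  · rw [Fin.succAbove_of_castSucc_lt _ _ (by rw [Fin.lt_def]; exact h)]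
    rfl
  · rw [Fin.succAbove_of_le_castSucc _ _ (by rw [Fin.le_def]; exact not_lt.mp h)]
    rfl

theorem ent_ins_low {n : ℕ} (q v : Fin (n + 1)) (τ : Perm (Fin n)) (i : ℕ) (hi : i < q) :
    ent (ins q v τ) i = up v (ent τ i) := by
  have hq := q.isLt
  rw [ent_lt _ (by omega : i < n + 1), ent_lt τ (by omega : i < n)]
  have h1 : (⟨i, by omega⟩ : Fin (n + 1)) = q.succAbove ⟨i, by omega⟩ := by
    apply Fin.ext
    rw [succAbove_val]
    unfold up
    rw [if_pos hi]
  rw [h1, ins_succAbove, succAbove_val]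

theorem ent_ins_high {n : ℕ} (q v : Fin (n + 1)) (τ : Perm (Fin n)) (i : ℕ) (hi : (q : ℕ) ≤ i)
    (hin : i < n) : ent (ins q v τ) (i + 1) = up v (ent τ i) := by
  rw [ent_lt _ (by omega : i + 1 < n + 1), ent_lt τ hin]
  have h1 : (⟨i + 1, by omega⟩ : Fin (n + 1)) = q.succAbove ⟨i, hin⟩ := by
    apply Fin.ext
    rw [succAbove_val]
    unfold up
    rw [if_neg (not_lt.mpr hi)]
  rw [h1, ins_succAbove, succAbove_val]

theorem noShort_ins {n K : ℕ} (hK : 2 * K ≤ n) (v : Fin (n + 1)) (τ : Perm (Fin n)) :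
    NoShort K (ins ⟨K, by omega⟩ v τ) ↔ NoShort K τ := by
  have key : ∀ k, 2 ≤ k → k ≤ K →
      (Same (ins ⟨K, by omega⟩ v τ) k (n + 1 - k) ↔ Same τ k (n - k)) := by
    intro k hk2 hkK
    have h1 : ∀ i < k, ent (ins ⟨K, by omega⟩ v τ) i = up v (ent τ i) := by
      intro i hi
      exact ent_ins_low _ v τ i (by show i < K; omega)
    have h2 : ∀ i < k, ent (ins ⟨K, by omega⟩ v τ) (n + 1 - k + i) =
        up v (ent τ (n - k + i)) := by
      intro i hi
      have e1 : n + 1 - k + i = n - k + i + 1 := by omega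
      rw [e1]
      exact ent_ins_high _ v τ (n - k + i) (by show K ≤ n - k + i; omega) (by omega)
    constructor
    · intro h i hi j hj
      have h3 := h i hi j hj
      rw [h1 i hi, h1 j hj, h2 i hi, h2 j hj, up_lt, up_lt] at h3
      exact h3
    · intro h i hi j hj
      rw [h1 i hi, h1 j hj, h2 i hi, h2 j hj, up_lt, up_lt]
      exact h i hi j hj
  constructor
  · intro h k hk2 hkK hs
    exact h k hk2 hkK ((key k hk2 hkK).mpr hs)
  · intro h k hk2 hkK hs
    exact h k hk2 hkK ((key k hk2 hkK).mp hs)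

/-- The permutations starting with `a` with no short overlap. -/
def Q (N K : ℕ) (a : Fin (N + 1)) : Set (Perm (Fin (N + 1))) := {τ | τ 0 = a ∧ NoShort K τ}

theorem Q_succ {N K : ℕ} (hK1 : 1 ≤ K) (hK : 2 * K ≤ N + 1) :
    (Q (N + 1) K 0).ncard = (N + 1) * (Q N K 0).ncard := by
  classical
  have hK' : K < N + 1 + 1 := by omega
  have himg : Q (N + 1) K 0 = (fun x : Fin (N + 1 + 1) × Perm (Fin (N + 1)) =>
      ins ⟨K, hK'⟩ x.1 x.2) '' ({v : Fin (N + 1 + 1) | v ≠ 0} ×ˢ Q N K 0) := by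
    ext σ
    constructor
    · rintro ⟨h1, h2⟩
      obtain ⟨⟨v, τ⟩, rfl⟩ := (ins_bijective ⟨K, hK'⟩).2 σ
      simp only at h1 h2
      have h3 : ent (ins ⟨K, hK'⟩ v τ) 0 = up v (ent τ 0) :=
        ent_ins_low _ v τ 0 (by show 0 < K; omega)
      rw [ent_lt _ (by omega : 0 < N + 1 + 1), ent_lt _ (by omega : 0 < N + 1)] at h3
      have h4 : (ins ⟨K, hK'⟩ v τ ⟨0, by omega⟩ : ℕ) = 0 := by
        have : (⟨0, by omega⟩ : Fin (N + 1 + 1)) = 0 := rfl
        rw [this, h1]
        rfl
      rw [h4] at h3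
      have h5 : (τ ⟨0, by omega⟩ : ℕ) = 0 ∧ (v : ℕ) ≠ 0 := by
        unfold up at h3
        split_ifs at h3 with h6
        omega
      refine ⟨(v, τ), ⟨?_, ?_, ?_⟩, rfl⟩
      · intro h
        apply h5.2
        simp only at h
        rw [h]
        rfl
      · apply Fin.ext
        exact h5.1
      · exact (noShort_ins hK v τ).mp h2
    · rintro ⟨⟨v, τ⟩, ⟨hv, hτ1, hτ2⟩, rfl⟩
      simp only at hv hτ1 hτ2
      refine ⟨?_, (noShort_ins hK v τ).mpr hτ2⟩
      have h3 : ent (ins ⟨K, hK'⟩ v τ) 0 = up v (ent τ 0) :=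
        ent_ins_low _ v τ 0 (by show 0 < K; omega)
      rw [ent_lt _ (by omega : 0 < N + 1 + 1), ent_lt _ (by omega : 0 < N + 1)] at h3
      have h4 : (τ ⟨0, by omega⟩ : ℕ) = 0 := by
        have : (⟨0, by omega⟩ : Fin (N + 1)) = 0 := rfl
        rw [this, hτ1]
        rfl
      have hv' : 0 < (v : ℕ) := by
        rcases Nat.eq_zero_or_pos (v : ℕ) with h | h
        · exact absurd (Fin.ext h) hv
        · exact h
      rw [h4] at h3
      unfold up at h3
      rw [if_pos hv'] at h3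
      apply Fin.ext
      exact h3
  rw [himg, Set.ncard_image_of_injective _ (ins_bijective _).1, Set.ncard_prod]
  congr 1
  have : {v : Fin (N + 1 + 1) | v ≠ 0} = ((univ.filter (fun v : Fin (N + 1 + 1) => v ≠ 0) :
      Finset (Fin (N + 1 + 1))) : Set (Fin (N + 1 + 1))) := by
    ext v
    simp
  rw [this, Set.ncard_coe_finset, Finset.filter_ne' univ 0,
    Finset.card_erase_of_mem (mem_univ _), card_univ, Fintype.card_fin]
  omega

/-- The proportion of permutations with no short overlap, among those starting with `0`. -/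
noncomputable def A (K : ℕ) : ℝ := ((Q (2 * K) K 0).ncard : ℝ) / (2 * K).factorial

theorem Q_const {N K : ℕ} (hK1 : 1 ≤ K) (hN : 2 * K ≤ N) :
    ((Q N K 0).ncard : ℝ) = N.factorial * A K := by
  induction N, hN using Nat.le_induction with
  | base =>
    unfold A
    have : ((2 * K).factorial : ℝ) ≠ 0 := by exact_mod_cast Nat.factorial_ne_zero _
    field_simp
  | succ N hN ih =>
    rw [Q_succ hK1 (by omega), Nat.cast_mul, ih, Nat.factorial_succ, Nat.cast_mul]
    ring

/-- Two prescribed values. -/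
theorem two_values {N : ℕ} (i : Fin (N + 1)) (hi : i ≠ 0) (a v : Fin (N + 1)) :
    {τ : Perm (Fin (N + 1)) | τ 0 = a ∧ τ i = v}.ncard ≤ (N - 1).factorial := by
  classical
  let T : Finset (Fin (N + 1)) := {0, i}
  have hT : T.card = 2 := Finset.card_pair (Ne.symm hi)
  let g : T → Fin (N + 1) := fun u => if (u : Fin (N + 1)) = 0 then a else v
  have h1 := Q165.PatClass.card_fixed T g
  rw [hT] at h1
  have e1 : N + 1 - 2 = N - 1 := by omega
  rw [e1] at h1
  refine le_trans ?_ h1
  rw [← Set.ncard_coe_finset]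
  apply Set.ncard_le_ncard _ (Set.toFinite _)
  rintro τ ⟨h2, h3⟩
  rw [Finset.mem_coe, mem_filter]
  refine ⟨mem_univ _, ?_⟩
  funext ⟨u, hu⟩
  simp only [T, Finset.mem_insert, Finset.mem_singleton] at hu
  simp only [g]
  rcases hu with rfl | rfl
  · rw [if_pos rfl, h2]
  · rw [if_neg hi, h3]

/-- Changing the first entry. -/
theorem Q_change {N K : ℕ} (hK1 : 1 ≤ K) (hN : 2 * K ≤ N) (a : Fin (N + 1)) :
    |((Q N K a).ncard : ℝ) - (Q N K 0).ncard| ≤ 2 * K * (a + 1) * (N - 1).factorial := by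
  classical
  let f : Perm (Fin (N + 1)) → Perm (Fin (N + 1)) := fun τ => swap 0 a * τ
  have hf : Function.Injective f := fun x y h => mul_left_cancel h
  have hff : ∀ τ, f (f τ) = τ := by
    intro τ
    show swap 0 a * (swap 0 a * τ) = τ
    rw [← mul_assoc, swap_mul_self, one_mul]
  -- bad permutations
  let W : Finset (Fin (N + 1)) := univ.filter (fun i => i ≠ 0 ∧ ((i : ℕ) < K ∨ N + 1 - K ≤ i))
  let bad : Set (Perm (Fin (N + 1))) := {τ | τ 0 = 0 ∧ ∃ i ∈ W, ∃ v ∈ Finset.Iic a, τ i = v}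
  have hW : W.card ≤ 2 * K := by
    have h1 : W ⊆ (univ.filter (fun i : Fin (N + 1) => (i : ℕ) < K)) ∪
        (univ.filter (fun i : Fin (N + 1) => N + 1 - K ≤ (i : ℕ))) := by
      intro i hi
      simp only [W, mem_filter, mem_univ, true_and] at hi
      rw [mem_union, mem_filter, mem_filter]
      rcases hi.2 with h | h
      · exact Or.inl ⟨mem_univ _, h⟩
      · exact Or.inr ⟨mem_univ _, h⟩
    have h2 : (univ.filter (fun i : Fin (N + 1) => (i : ℕ) < K)).card ≤ K := by
      have h3 : (univ.filter (fun i : Fin (N + 1) => (i : ℕ) < K)).image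
          (fun i : Fin (N + 1) => (i : ℕ)) ⊆ Finset.range K := by
        intro x hx
        rw [Finset.mem_image] at hx
        obtain ⟨i, hi, rfl⟩ := hx
        rw [mem_filter] at hi
        rw [Finset.mem_range]
        exact hi.2
      have h4 := Finset.card_le_card h3
      rwa [Finset.card_image_of_injective _ Fin.val_injective, Finset.card_range] at h4
    have h5 : (univ.filter (fun i : Fin (N + 1) => N + 1 - K ≤ (i : ℕ))).card ≤ K := by
      have h3 : (univ.filter (fun i : Fin (N + 1) => N + 1 - K ≤ (i : ℕ))).image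
          (fun i : Fin (N + 1) => (i : ℕ)) ⊆ Finset.Ico (N + 1 - K) (N + 1) := by
        intro x hx
        rw [Finset.mem_image] at hx
        obtain ⟨i, hi, rfl⟩ := hx
        rw [mem_filter] at hi
        rw [Finset.mem_Ico]
        exact ⟨hi.2, i.isLt⟩
      have h4 := Finset.card_le_card h3
      rw [Finset.card_image_of_injective _ Fin.val_injective, Nat.card_Ico] at h4
      omega
    have h6 := Finset.card_le_card h1
    have h7 := Finset.card_union_le (univ.filter (fun i : Fin (N + 1) => (i : ℕ) < K))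
      (univ.filter (fun i : Fin (N + 1) => N + 1 - K ≤ (i : ℕ)))
    omega
  have hbad : (bad.ncard : ℝ) ≤ 2 * K * (a + 1) * (N - 1).factorial := by
    have h1 : bad ⊆ ⋃ x ∈ W ×ˢ Finset.Iic a, {τ : Perm (Fin (N + 1)) | τ 0 = 0 ∧ τ x.1 = x.2} := by
      rintro τ ⟨h2, i, hi, v, hv, h3⟩
      rw [Set.mem_iUnion₂]
      exact ⟨(i, v), Finset.mem_product.mpr ⟨hi, hv⟩, h2, h3⟩
    have h4 := Set.ncard_le_ncard h1 (Set.toFinite _)
    have h5 : (⋃ x ∈ W ×ˢ Finset.Iic a, {τ : Perm (Fin (N + 1)) | τ 0 = 0 ∧ τ x.1 = x.2}) =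
        (((W ×ˢ Finset.Iic a).biUnion (fun x => (Set.toFinite
          {τ : Perm (Fin (N + 1)) | τ 0 = 0 ∧ τ x.1 = x.2}).toFinset) :
            Finset (Perm (Fin (N + 1)))) : Set (Perm (Fin (N + 1)))) := by
      ext τ
      rw [Set.mem_iUnion₂, Finset.mem_coe, Finset.mem_biUnion]
      constructor
      · rintro ⟨k, hk, h⟩
        exact ⟨k, hk, (Set.Finite.mem_toFinset _).mpr h⟩
      · rintro ⟨k, hk, h⟩
        exact ⟨k, hk, (Set.Finite.mem_toFinset _).mp h⟩
    rw [h5, Set.ncard_coe_finset] at h4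
    have h6 := (h4.trans Finset.card_biUnion_le)
    have h7 : ∑ x ∈ W ×ˢ Finset.Iic a, (Set.toFinite
          {τ : Perm (Fin (N + 1)) | τ 0 = 0 ∧ τ x.1 = x.2}).toFinset.card ≤
        (W ×ˢ Finset.Iic a).card * (N - 1).factorial := by
      rw [← smul_eq_mul]
      apply Finset.sum_le_card_nsmul
      rintro ⟨i, v⟩ hx
      rw [Finset.mem_product] at hx
      simp only [W, mem_filter] at hx
      rw [← Set.ncard_eq_toFinset_card]
      exact two_values i hx.1.2.1 0 v
    have h8 : (W ×ˢ Finset.Iic a).card ≤ 2 * K * (a + 1) := by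
      rw [Finset.card_product, Fin.card_Iic]
      exact Nat.mul_le_mul_right _ hW
    have h9 : bad.ncard ≤ 2 * K * (a + 1) * (N - 1).factorial :=
      (h6.trans h7).trans (Nat.mul_le_mul_right _ h8)
    exact_mod_cast h9
  -- on good permutations nothing changes
  have hgood : ∀ τ : Perm (Fin (N + 1)), τ 0 = 0 → τ ∉ bad →
      (NoShort K (f τ) ↔ NoShort K τ) := by
    intro τ h0 hb
    have hbig : ∀ i ∈ W, a < τ i := by
      intro i hi
      by_contra hc
      exact hb ⟨h0, i, hi, τ i, Finset.mem_Iic.mpr (not_lt.mp hc), rfl⟩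
    have hsame : ∀ i ∈ W, f τ i = τ i := by
      intro i hi
      show swap 0 a (τ i) = τ i
      have h1 := hbig i hi
      apply swap_apply_of_ne_of_ne
      · intro h
        rw [h] at h1
        exact absurd h1 (not_lt.mpr (Fin.zero_le _))
      · exact ne_of_gt h1
    have hf0 : f τ 0 = a := by
      show swap 0 a (τ 0) = a
      rw [h0, swap_apply_left]
    have e0 : ent τ 0 = 0 := by
      rw [ent_lt _ (by omega : 0 < N + 1)]
      have : (⟨0, by omega⟩ : Fin (N + 1)) = 0 := rfl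
      rw [this, h0]
      rfl
    have e0' : ent (f τ) 0 = a := by
      rw [ent_lt _ (by omega : 0 < N + 1)]
      have : (⟨0, by omega⟩ : Fin (N + 1)) = 0 := rfl
      rw [this, hf0]
    have hW1 : ∀ i, 0 < i → i < K → ent (f τ) i = ent τ i ∧ (a : ℕ) < ent τ i := by
      intro i h1 h2
      have hm : (⟨i, by omega⟩ : Fin (N + 1)) ∈ W := by
        simp only [W, mem_filter, mem_univ, true_and]
        refine ⟨?_, Or.inl h2⟩
        intro h
        have := congrArg Fin.val h
        simp only [Fin.val_zero] at this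
        omega
      rw [ent_lt _ (by omega : i < N + 1), ent_lt _ (by omega : i < N + 1), hsame _ hm]
      exact ⟨rfl, hbig _ hm⟩
    have hW2 : ∀ i, N + 1 - K ≤ i → i < N + 1 → ent (f τ) i = ent τ i := by
      intro i h1 h2
      have hm : (⟨i, h2⟩ : Fin (N + 1)) ∈ W := by
        simp only [W, mem_filter, mem_univ, true_and]
        refine ⟨?_, Or.inr h1⟩
        intro h
        have := congrArg Fin.val h
        simp only [Fin.val_zero] at this
        omega
      rw [ent_lt _ h2, ent_lt _ h2, hsame _ hm]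
    have key : ∀ k, 2 ≤ k → k ≤ K →
        (Same (f τ) k (N + 1 - k) ↔ Same τ k (N + 1 - k)) := by
      intro k hk2 hkK
      have h1 : ∀ i < k, ∀ j < k, (ent (f τ) i < ent (f τ) j ↔ ent τ i < ent τ j) := by
        intro i hi j hj
        rcases Nat.eq_zero_or_pos i with rfl | hi0 <;> rcases Nat.eq_zero_or_pos j with rfl | hj0
        · simp
        · obtain ⟨g1, g2⟩ := hW1 j hj0 (by omega)
          rw [e0, e0', g1]
          constructor <;> intro _ <;> omega
        · obtain ⟨g1, g2⟩ := hW1 i hi0 (by omega)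
          rw [e0, e0', g1]
          constructor <;> intro _ <;> omega
        · rw [(hW1 i hi0 (by omega)).1, (hW1 j hj0 (by omega)).1]
      constructor
      · intro h i hi j hj
        have h2 := h i hi j hj
        rwa [h1 i hi j hj, hW2 _ (by omega) (by omega), hW2 _ (by omega) (by omega)] at h2
      · intro h i hi j hj
        rw [h1 i hi j hj, hW2 _ (by omega) (by omega), hW2 _ (by omega) (by omega)]
        exact h i hi j hj
    constructor
    · intro h k hk2 hkK hs
      exact h k hk2 hkK ((key k hk2 hkK).mpr hs)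
    · intro h k hk2 hkK hs
      exact h k hk2 hkK ((key k hk2 hkK).mp hs)
  have hfa : ∀ τ : Perm (Fin (N + 1)), f τ 0 = a ↔ τ 0 = 0 := by
    intro τ
    show swap 0 a (τ 0) = a ↔ τ 0 = 0
    constructor
    · intro h
      have := congrArg (swap 0 a) h
      rwa [swap_apply_self, swap_apply_right] at this
    · intro h
      rw [h, swap_apply_left]
  have hup : (Q N K a).ncard ≤ (Q N K 0).ncard + bad.ncard := by
    have h1 : Q N K a ⊆ f '' (Q N K 0 ∪ bad) := by
      rintro τ ⟨h2, h3⟩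
      refine ⟨f τ, ?_, hff τ⟩
      have h4 : f τ 0 = 0 := by
        rw [← hfa, hff]
        exact h2
      by_cases hb : f τ ∈ bad
      · exact Or.inr hb
      · left
        refine ⟨h4, ?_⟩
        rw [← hgood (f τ) h4 hb, hff]
        exact h3
    have h5 := Set.ncard_le_ncard h1 (Set.toFinite _)
    rw [Set.ncard_image_of_injective _ hf] at h5
    exact h5.trans (Set.ncard_union_le _ _)
  have hdown : (Q N K 0).ncard ≤ (Q N K a).ncard + bad.ncard := by
    have h1 : Q N K 0 ⊆ f '' (Q N K a) ∪ bad := by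
      rintro τ ⟨h2, h3⟩
      by_cases hb : τ ∈ bad
      · exact Or.inr hb
      · left
        refine ⟨f τ, ⟨(hfa τ).mpr h2, (hgood τ h2 hb).mpr h3⟩, hff τ⟩
    have h5 := Set.ncard_le_ncard h1 (Set.toFinite _)
    have h6 := h5.trans (Set.ncard_union_le _ _)
    rwa [Set.ncard_image_of_injective _ hf] at h6
  have hup' : ((Q N K a).ncard : ℝ) ≤ (Q N K 0).ncard + bad.ncard := by exact_mod_cast hup
  have hdown' : ((Q N K 0).ncard : ℝ) ≤ (Q N K a).ncard + bad.ncard := by exact_mod_cast hdown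
  rw [abs_le]
  constructor <;> linarith

/-- The main estimate. -/
theorem p_near {N K m : ℕ} (hK1 : 1 ≤ K) (hN : 2 * K ≤ N) (hm : 1 ≤ m) (hmN : m ≤ N) :
    |p (N + 1) m - A K| ≤ 4 * (1 / 2) ^ K + 2 * K * m / N := by
  have hf : (0 : ℝ) < N.factorial := by exact_mod_cast Nat.factorial_pos N
  have hf' : (N.factorial : ℝ) = N * (N - 1).factorial := by
    have h1 : N * (N - 1).factorial = N.factorial := Nat.mul_factorial_pred (by omega)
    exact_mod_cast h1.symm
  obtain ⟨a, ha⟩ : ∃ a : Fin (N + 1), (a : ℕ) + 1 = m := ⟨⟨m - 1, by omega⟩, by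
    show m - 1 + 1 = m
    omega⟩
  have hset : {τ : Perm (Fin (N + 1)) | MinOverlap τ ∧ ∃ h : 0 < N + 1,
      (τ ⟨0, h⟩ : ℕ) + 1 = m} = {τ | τ 0 = a ∧ MinOverlap τ} := by
    ext τ
    constructor
    · rintro ⟨h1, h2, h3⟩
      refine ⟨?_, h1⟩
      apply Fin.ext
      have : (⟨0, h2⟩ : Fin (N + 1)) = 0 := rfl
      rw [this] at h3
      omega
    · rintro ⟨h1, h2⟩
      refine ⟨h2, Nat.succ_pos N, ?_⟩
      have : (⟨0, Nat.succ_pos N⟩ : Fin (N + 1)) = 0 := rfl
      rw [this, h1, ha]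
  have hnoshort : ∀ τ : Perm (Fin (N + 1)), MinOverlap τ → NoShort K τ := by
    intro τ h k hk2 hkK
    exact h k hk2 (by omega)
  have hsplit : ((Q N K a).ncard : ℝ) = ({τ : Perm (Fin (N + 1)) | τ 0 = a ∧ MinOverlap τ}.ncard : ℝ)
      + ({τ : Perm (Fin (N + 1)) | τ 0 = a ∧ NoShort K τ ∧ ¬ MinOverlap τ}.ncard : ℝ) := by
    have h1 : Q N K a = {τ : Perm (Fin (N + 1)) | τ 0 = a ∧ MinOverlap τ} ∪
        {τ : Perm (Fin (N + 1)) | τ 0 = a ∧ NoShort K τ ∧ ¬ MinOverlap τ} := by
      ext τ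
      constructor
      · rintro ⟨h1, h2⟩
        by_cases h3 : MinOverlap τ
        · exact Or.inl ⟨h1, h3⟩
        · exact Or.inr ⟨h1, h2, h3⟩
      · rintro (⟨h1, h2⟩ | ⟨h1, h2, -⟩)
        · exact ⟨h1, hnoshort τ h2⟩
        · exact ⟨h1, h2⟩
    have h2 : Disjoint {τ : Perm (Fin (N + 1)) | τ 0 = a ∧ MinOverlap τ}
        {τ : Perm (Fin (N + 1)) | τ 0 = a ∧ NoShort K τ ∧ ¬ MinOverlap τ} := by
      rw [Set.disjoint_left]
      rintro τ ⟨-, h3⟩ ⟨-, -, h4⟩
      exact h4 h3
    rw [h1, Set.ncard_union_eq h2 (Set.toFinite _) (Set.toFinite _)]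
    push_cast
    rfl
  have hlong := long_rare (N := N) a hK1 hN
  have hchange := Q_change hK1 hN a
  rw [Q_const hK1 hN] at hchange
  have ham : ((a : ℕ) : ℝ) + 1 = m := by exact_mod_cast ha
  rw [ham] at hchange
  unfold p
  rw [hset, Nat.add_sub_cancel]
  have hpos : (0 : ℝ) ≤
      ({τ : Perm (Fin (N + 1)) | τ 0 = a ∧ NoShort K τ ∧ ¬ MinOverlap τ}.ncard : ℝ) := by positivity
  have hN0 : (0 : ℝ) < N := by
    have : 0 < N := by omega
    exact_mod_cast this
  have e1 : 2 * (K : ℝ) * m * (N - 1).factorial = N.factorial * (2 * K * m / N) := by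
    rw [hf']
    field_simp
  rw [e1] at hchange
  rw [abs_le] at hchange ⊢
  obtain ⟨h1, h2⟩ := hchange
  constructor
  · rw [le_sub_iff_add_le, le_div_iff₀ hf]
    nlinarith
  · rw [sub_le_iff_le_add, div_le_iff₀ hf]
    have h3 : (0 : ℝ) ≤ N.factorial * (4 * (1 / 2) ^ K) := by positivity
    nlinarith

/-- The proportions `p_n(m)` converge to a limit which is the same for all `m ≥ 1`. -/
theorem result : (∃ c : ℝ, ∀ m, 1 ≤ m → Tendsto (fun n => p n m) atTop (𝓝 c)) ∧
    ∀ L : ℕ → ℝ, (∀ m, 1 ≤ m → Tendsto (fun n => p n m) atTop (𝓝 (L m))) →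
      ∀ a b, 1 ≤ a → a < b → L a = L b := by
  have hmain : ∃ c : ℝ, ∀ m, 1 ≤ m → Tendsto (fun n => p n m) atTop (𝓝 c) := by
    have hhalf : Tendsto (fun K : ℕ => 4 * (1 / 2 : ℝ) ^ K) atTop (𝓝 0) := by
      have := (tendsto_pow_atTop_nhds_zero_of_lt_one (show (0 : ℝ) ≤ 1 / 2 by norm_num)
        (by norm_num)).const_mul 4
      simpa using this
    have hratio : ∀ K m : ℕ, Tendsto (fun N : ℕ => 2 * (K : ℝ) * m / N) atTop (𝓝 0) :=
      fun K m => tendsto_const_div_atTop_nhds_zero_nat _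
    -- approximation by `A K`
    have happ : ∀ m, 1 ≤ m → ∀ ε > 0, ∃ K₀, ∀ K ≥ K₀, ∀ᶠ n in atTop, |p n m - A K| < ε := by
      intro m hm ε hε
      obtain ⟨K₁, hK₁⟩ := (eventually_atTop.mp (hhalf.eventually_lt_const (half_pos hε)))
      refine ⟨max K₁ 1, fun K hK => ?_⟩
      have h1 := hK₁ K (le_trans (le_max_left _ _) hK)
      have h2 := (hratio K m).eventually_lt_const (half_pos hε)
      have h3 : ∀ᶠ N in atTop, |p (N + 1) m - A K| < ε := by
        filter_upwards [h2, eventually_ge_atTop (2 * K), eventually_ge_atTop m] with N h4 h5 h6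
        have h7 := p_near (le_trans (le_max_right _ _) hK) h5 hm h6
        linarith
      obtain ⟨N₀, hN₀⟩ := eventually_atTop.mp h3
      refine eventually_atTop.mpr ⟨N₀ + 1, fun n hn => ?_⟩
      have := hN₀ (n - 1) (by omega)
      rwa [Nat.sub_add_cancel (by omega)] at this
    have hcauchy : CauchySeq (fun n => p n 1) := by
      rw [Metric.cauchySeq_iff']
      intro ε hε
      obtain ⟨K₀, hK₀⟩ := happ 1 (le_refl 1) (ε / 2) (half_pos hε)
      obtain ⟨n₀, hn₀⟩ := eventually_atTop.mp (hK₀ K₀ (le_refl _))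
      refine ⟨n₀, fun n hn => ?_⟩
      rw [Real.dist_eq]
      have h1 := abs_lt.mp (hn₀ n hn)
      have h2 := abs_lt.mp (hn₀ n₀ (le_refl _))
      rw [abs_lt]
      constructor <;> linarith [h1.1, h1.2, h2.1, h2.2]
    obtain ⟨c, hc⟩ := cauchySeq_tendsto_of_complete hcauchy
    refine ⟨c, fun m hm => ?_⟩
    rw [Metric.tendsto_atTop]
    intro ε hε
    obtain ⟨K₀, hK₀⟩ := happ m hm (ε / 4) (by linarith)
    obtain ⟨K₁, hK₁⟩ := happ 1 (le_refl 1) (ε / 4) (by linarith)
    have h1 := hK₀ (max K₀ K₁) (le_max_left _ _)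
    have h2 := hK₁ (max K₀ K₁) (le_max_right _ _)
    have h3 : ∀ᶠ n in atTop, |p n 1 - c| < ε / 4 := by
      have := Metric.tendsto_atTop.mp hc (ε / 4) (by linarith)
      obtain ⟨n₀, hn₀⟩ := this
      exact eventually_atTop.mpr ⟨n₀, fun n hn => by
        have := hn₀ n hn
        rwa [Real.dist_eq] at this⟩
    obtain ⟨n₀, hn₀⟩ := eventually_atTop.mp (h1.and (h2.and h3))
    refine ⟨n₀, fun n hn => ?_⟩
    obtain ⟨g1, g2, g3⟩ := hn₀ n hn
    rw [Real.dist_eq]
    rw [abs_lt] at g1 g2 g3 ⊢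
    constructor <;> linarith [g1.1, g1.2, g2.1, g2.2, g3.1, g3.2]
  refine ⟨hmain, ?_⟩
  obtain ⟨c, hc⟩ := hmain
  intro L hL a b ha hab
  have h1 := tendsto_nhds_unique (hL a ha) (hc a ha)
  have h2 := tendsto_nhds_unique (hL b (by omega)) (hc b (by omega))
  rw [h1, h2]

end Pool.Agent.Results.MP_d8535d_co.SameLimit
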